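import Pool.Agent.P8H62.UO.Trv

/-!
# Project UO, package CON: a unipotent element and no stable cyclic subgroup give a congruence
subgroup (for `t ≥ 1`)
-/

set_option autoImplicit false

namespace Pool.Agent.P8H62.UO

open Pool.Agent.Q19.SU.Gen Pool.Agent.P8H9.UO

/-- `S_CON` with the hypothesis `1 ≤ t` -/
def S_CON1 : Prop := S_TRV → S_PAD → ∀ (G V : Type) [Group G] [AddCommGroup V] (ρ : G → V →+ V),
  Rep ρ → ∀ p s t : ℕ, p.Prime → 1 ≤ t →
  (∀ K : ℕ, ∃ u : G, (∀ R : V, ((p : ℤ) ^ K) • R = 0 → ρ u (ρ u R - R) = ρ u R - R) ∧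
    ∃ P : V, ((p : ℤ) ^ (s + 1)) • P = 0 ∧ ρ u P ≠ P) →
  (∀ c : V, ((p : ℤ) ^ t) • c = 0 → ((p : ℤ) ^ (t - 1)) • c ≠ 0 →
    ∃ g : G, ρ g c ∉ AddSubgroup.zmultiples c) →
  ∀ k : ℕ, ∃ P Q : V, Bas (p ^ k) P Q ∧ AllN ρ (p ^ (2 * s + 3 * t)) (p ^ k) 1 P Q

section

variable {V : Type} [AddCommGroup V]

/-- bases at lower levels -/
theorem bas_down {p k j : ℕ} (hp : p.Prime) {P Q : V} (h : Bas (p ^ (k + j)) P Q) :
    Bas (p ^ k) (((p : ℤ) ^ j) • P) (((p : ℤ) ^ j) • Q) := by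
  have hp0 : ∀ n : ℕ, ((p : ℤ) ^ n) ≠ 0 := fun n => pow_ne_zero _ (by exact_mod_cast hp.ne_zero)
  have hP := h.hP
  have hQ := h.hQ
  push_cast at hP hQ
  refine ⟨?_, ?_, ?_, ?_⟩
  · push_cast
    rw [smul_smul, ← pow_add, hP]
  · push_cast
    rw [smul_smul, ← pow_add, hQ]
  · intro R hR
    push_cast at hR
    obtain ⟨a, b, hab⟩ := h.span R (by
      push_cast
      rw [pow_add, mul_comm, mul_smul, hR, smul_zero])
    have h1 := h.ind (((p : ℤ) ^ k) * a) (((p : ℤ) ^ k) * b) (by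
      rw [mul_smul, mul_smul, ← smul_add, ← hab, hR])
    push_cast at h1
    rw [pow_add] at h1
    obtain ⟨a', ha'⟩ := (mul_dvd_mul_iff_left (hp0 k)).1 h1.1
    obtain ⟨b', hb'⟩ := (mul_dvd_mul_iff_left (hp0 k)).1 h1.2
    refine ⟨a', b', ?_⟩
    rw [hab, ha', hb']
    module
  · intro a b hab
    have h1 := h.ind (((p : ℤ) ^ j) * a) (((p : ℤ) ^ j) * b) (by
      rw [← hab]
      module)
    push_cast at h1 ⊢
    rw [add_comm, pow_add] at h1
    exact ⟨(mul_dvd_mul_iff_left (hp0 j)).1 h1.1, (mul_dvd_mul_iff_left (hp0 j)).1 h1.2⟩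

theorem nat_rep {n : ℕ} (hn : 1 ≤ n) (m : ℤ) : ∃ j : ℕ, (n : ℤ) ∣ (j : ℤ) - m := by
  refine ⟨(m % n).toNat, ?_⟩
  have h1 : 0 ≤ m % (n : ℤ) := Int.emod_nonneg _ (by exact_mod_cast (by omega : n ≠ 0))
  rw [Int.toNat_of_nonneg h1]
  exact ⟨-(m / n), by linear_combination Int.emod_add_mul_ediv m n⟩

theorem pow_u {G : Type} [Group G] {ρ : G → V →+ V} (hR : Rep ρ) {σ : G} {P Q : V} {x : ℤ}
    (h : ρ σ P = P) (h2 : ρ σ Q = Q + x • P) (n : ℕ) :
    ρ (σ ^ n) P = P ∧ ρ (σ ^ n) Q = Q + (n * x) • P := by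
  induction n with
  | zero => rw [pow_zero, hR.one, hR.one]; simp
  | succ n ih =>
    obtain ⟨i1, i2⟩ := ih
    rw [pow_succ, hR.mul, hR.mul, h2, h, map_add, map_zsmul, i1, i2]
    refine ⟨rfl, ?_⟩
    push_cast
    module

end

theorem con : S_CON1 := by
  intro hT hPAD G V _ _ ρ hR p s t hp ht hu hc k
  have hpp : Prime (p : ℤ) := Nat.prime_iff_prime_int.1 hp
  have hp0 : ∀ n : ℕ, ((p : ℤ) ^ n) ≠ 0 := fun n => pow_ne_zero _ (by exact_mod_cast hp.ne_zero)
  have hp1 : ∀ n : ℕ, 1 ≤ p ^ n := fun n => Nat.one_le_pow _ _ hp.pos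
  obtain ⟨u, hu1, hu2⟩ := hu (k + s + t + 2 * s + 2)
  obtain ⟨r, P, Q, hrs, hB, huP, huQ⟩ := hT G V ρ hR p s (k + s + t + 2 * s + 2) hp (by omega) u
    hu1 hu2
  set k' := k + s + t + 2 * s + 2 - r with hk'
  have hkk : k + t ≤ k' := by omega
  have hP := hB.hP
  have hQ := hB.hQ
  push_cast at hP hQ
  -- an element not fixing the line
  obtain ⟨g, hg⟩ := hc (((p : ℤ) ^ (k' - t)) • P)
    (by
      rw [smul_smul, ← pow_add]
      have : t + (k' - t) = k' := by omega
      rw [this, hP])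
    (by
      rw [smul_smul, ← pow_add]
      have : t - 1 + (k' - t) = k' - 1 := by omega
      rw [this]
      intro h0
      have h1 := (hB.ind ((p : ℤ) ^ (k' - 1)) 0 (by rw [h0]; simp)).1
      push_cast at h1
      have h2 : (p : ℤ) ^ (k' - 1) * p ∣ (p : ℤ) ^ (k' - 1) * 1 := by
        rw [mul_one, ← pow_succ]
        have : k' - 1 + 1 = k' := by omega
        rw [this]
        exact h1
      exact hpp.not_isUnit (isUnit_of_dvd_one ((mul_dvd_mul_iff_left (hp0 _)).1 h2)))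
  have kill : ∀ (σ : G) (R : V), ((p ^ k' : ℕ) : ℤ) • R = 0 → ((p ^ k' : ℕ) : ℤ) • ρ σ R = 0 := by
    intro σ R h
    rw [← map_zsmul, h, map_zero]
  obtain ⟨a, c, h1⟩ := hB.span _ (kill g P hB.hP)
  obtain ⟨b, d, h2⟩ := hB.span _ (kill g Q hB.hQ)
  obtain ⟨a', c', h3⟩ := hB.span _ (kill g⁻¹ P hB.hP)
  obtain ⟨b', d', h4⟩ := hB.span _ (kill g⁻¹ Q hB.hQ)
  have hct : ¬ (p : ℤ) ^ t ∣ c := by
    rintro ⟨x, hx⟩
    apply hg
    rw [AddSubgroup.mem_zmultiples_iff]
    refine ⟨a, ?_⟩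
    rw [map_zsmul, h1, hx]
    have e1 : ((p : ℤ) ^ (k' - t)) • (a • P + ((p : ℤ) ^ t * x) • Q) =
        a • ((p : ℤ) ^ (k' - t)) • P + x • (((p : ℤ) ^ (k' - t) * (p : ℤ) ^ t) • Q) := by module
    have e2 : (p : ℤ) ^ (k' - t) * (p : ℤ) ^ t = (p : ℤ) ^ k' := by
      rw [← pow_add]
      congr 1
      omega
    rw [e1, e2, hQ, smul_zero, add_zero]
  -- the inverse matrix
  have hinv : ∀ v, ρ g⁻¹ (ρ g v) = v := by
    intro v
    rw [← hR.mul, inv_mul_cancel, hR.one]
  have i1 := hB.ind (a * a' + c * b' - 1) (a * c' + c * d') (by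
    have := hinv P
    rw [h1, map_add, map_zsmul, map_zsmul, h3, h4] at this
    have e : (a * a' + c * b' - 1) • P + (a * c' + c * d') • Q =
        (a • (a' • P + c' • Q) + c • (b' • P + d' • Q)) - P := by module
    rw [e, this, sub_self])
  have i2 := hB.ind (b * a' + d * b') (b * c' + d * d' - 1) (by
    have := hinv Q
    rw [h2, map_add, map_zsmul, map_zsmul, h3, h4] at this
    have e : (b * a' + d * b') • P + (b * c' + d * d' - 1) • Q =
        (b • (a' • P + c' • Q) + d • (b' • P + d' • Q)) - Q := by module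
    rw [e, this, sub_self])
  have j1 : ((p ^ k' : ℕ) : ℤ) ∣ (a * d - b * c) * c' + c := by
    have e : (a * d - b * c) * c' + c = d * (a * c' + c * d') - c * (b * c' + d * d' - 1) := by
      ring
    rw [e]
    exact (i1.2.mul_left _).sub (i2.2.mul_left _)
  have j2 : ((p ^ k' : ℕ) : ℤ) ∣ (a * d - b * c) * d' - a := by
    have e : (a * d - b * c) * d' - a = a * (b * c' + d * d' - 1) - b * (a * c' + c * d') := by
      ring
    rw [e]
    exact (i2.2.mul_left _).sub (i1.2.mul_left _)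
  have hX := hPAD p k' r t a c (fun α β γ δ => Rl ρ 1 P Q α β γ δ) hp hct
    (fun a b c d a' b' c' d' h h' => h.mul hR.mul h')
    (fun a b c d a' b' c' d' h ha hb hc hd => h.congr hB.hP hB.hQ (by exact_mod_cast ha)
      (by exact_mod_cast hb) (by exact_mod_cast hc) (by exact_mod_cast hd))
    (by
      intro m
      obtain ⟨j, hj⟩ := nat_rep (hp1 k') m
      obtain ⟨q1, q2⟩ := pow_u hR huP huQ j
      refine ⟨u ^ j, ?_, ?_, ?_⟩
      · rw [q1]; simp
      · rw [q2]
        have : (((j : ℤ) * (p : ℤ) ^ r)) • P = ((p : ℤ) ^ r * m) • P := by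
          refine smul_congr hB.hP ?_
          have e : (j : ℤ) * (p : ℤ) ^ r - (p : ℤ) ^ r * m = (p : ℤ) ^ r * (j - m) := by ring
          rw [e]
          exact hj.mul_left _
        rw [this]
        module
      · intro R hR1
        rw [Nat.cast_one, one_smul] at hR1
        rw [hR1, map_zero])
    (by
      intro m
      obtain ⟨j, hj⟩ := nat_rep (hp1 k') ((a * d - b * c) * m)
      obtain ⟨q1, q2⟩ := pow_u hR huP huQ j
      have hgg : ∀ v, ρ g (ρ g⁻¹ v) = v := by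
        intro v
        rw [← hR.mul, mul_inv_cancel, hR.one]
      have key : ∀ x y : ℤ, ρ g (ρ (u ^ j) (x • P + y • Q)) =
          ρ g (x • P + y • Q) + (y * (j * (p : ℤ) ^ r)) • ρ g P := by
        intro x y
        rw [map_add, map_zsmul, map_zsmul, q1, q2, ← map_zsmul, ← map_add]
        congr 1
        module
      refine ⟨g * u ^ j * g⁻¹, ?_, ?_, ?_⟩
      · rw [hR.mul, hR.mul, h3, key, ← h3, hgg, h1]
        have w1 : (c' * ((j : ℤ) * (p : ℤ) ^ r) * a) • P = (-((p : ℤ) ^ r * m * a * c)) • P := by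
          refine smul_congr hB.hP ?_
          have e : c' * ((j : ℤ) * (p : ℤ) ^ r) * a - -((p : ℤ) ^ r * m * a * c) =
              c' * (p : ℤ) ^ r * a * (j - (a * d - b * c) * m) +
                (p : ℤ) ^ r * m * a * ((a * d - b * c) * c' + c) := by ring
          rw [e]
          exact (hj.mul_left _).add (j1.mul_left _)
        have w2 : (c' * ((j : ℤ) * (p : ℤ) ^ r) * c) • Q = (-((p : ℤ) ^ r * m * c ^ 2)) • Q := by
          refine smul_congr hB.hQ ?_
          have e : c' * ((j : ℤ) * (p : ℤ) ^ r) * c - -((p : ℤ) ^ r * m * c ^ 2) =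
              c' * (p : ℤ) ^ r * c * (j - (a * d - b * c) * m) +
                (p : ℤ) ^ r * m * c * ((a * d - b * c) * c' + c) := by ring
          rw [e]
          exact (hj.mul_left _).add (j1.mul_left _)
        have e : P + (c' * ((j : ℤ) * (p : ℤ) ^ r)) • (a • P + c • Q) =
            P + (c' * ((j : ℤ) * (p : ℤ) ^ r) * a) • P + (c' * ((j : ℤ) * (p : ℤ) ^ r) * c) • Q := by
          module
        rw [e, w1, w2]
        module
      · rw [hR.mul, hR.mul, h4, key, ← h4, hgg, h1]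
        have w1 : (d' * ((j : ℤ) * (p : ℤ) ^ r) * a) • P = ((p : ℤ) ^ r * m * a ^ 2) • P := by
          refine smul_congr hB.hP ?_
          have e : d' * ((j : ℤ) * (p : ℤ) ^ r) * a - ((p : ℤ) ^ r * m * a ^ 2) =
              d' * (p : ℤ) ^ r * a * (j - (a * d - b * c) * m) +
                (p : ℤ) ^ r * m * a * ((a * d - b * c) * d' - a) := by ring
          rw [e]
          exact (hj.mul_left _).add (j2.mul_left _)
        have w2 : (d' * ((j : ℤ) * (p : ℤ) ^ r) * c) • Q = ((p : ℤ) ^ r * m * a * c) • Q := by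
          refine smul_congr hB.hQ ?_
          have e : d' * ((j : ℤ) * (p : ℤ) ^ r) * c - ((p : ℤ) ^ r * m * a * c) =
              d' * (p : ℤ) ^ r * c * (j - (a * d - b * c) * m) +
                (p : ℤ) ^ r * m * c * ((a * d - b * c) * d' - a) := by ring
          rw [e]
          exact (hj.mul_left _).add (j2.mul_left _)
        have e : Q + (d' * ((j : ℤ) * (p : ℤ) ^ r)) • (a • P + c • Q) =
            Q + (d' * ((j : ℤ) * (p : ℤ) ^ r) * a) • P + (d' * ((j : ℤ) * (p : ℤ) ^ r) * c) • Q := by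
          module
        rw [e, w1, w2]
        module
      · intro R hR1
        rw [Nat.cast_one, one_smul] at hR1
        rw [hR1, map_zero])
  -- level `k`
  obtain ⟨j, hj⟩ : ∃ j, k' = k + j := ⟨k' - k, by omega⟩
  rw [hj] at hB
  refine ⟨((p : ℤ) ^ j) • P, ((p : ℤ) ^ j) • Q, bas_down hp hB, ?_⟩
  intro A B C D hdet hA hBB hC hD
  push_cast at hdet hA hBB hC hD
  have hM : (p : ℤ) ^ (2 * r + 3 * t) ∣ (p : ℤ) ^ (2 * s + 3 * t) := pow_dvd_pow _ (by omega)
  -- the lift of `D`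
  obtain ⟨D', hD1, hD2, hD3⟩ : ∃ D' : ℤ, (p : ℤ) ^ k' ∣ A * D' - B * C - 1 ∧
      (p : ℤ) ^ k ∣ D' - D ∧ (p : ℤ) ^ (2 * r + 3 * t) ∣ D' - 1 := by
    rcases Nat.lt_or_ge k' (2 * s + 3 * t) with hlt | hge
    · have hle : (p : ℤ) ^ k' ∣ (p : ℤ) ^ (2 * s + 3 * t) := pow_dvd_pow _ hlt.le
      refine ⟨1, ?_, ?_, by simp⟩
      · have e : A * 1 - B * C - 1 = (A - 1) - B * C := by ring
        rw [e]
        exact (hle.trans hA).sub ((hle.trans hBB).mul_right _)
      · have e : (1 : ℤ) - D = -(D - 1) := by ring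
        rw [e]
        exact (((pow_dvd_pow _ (by omega)).trans (hle.trans hD)).neg_right)
    · have hAp : ¬ (p : ℤ) ∣ A := by
        intro h
        have h5 : (p : ℤ) ∣ A - 1 := (dvd_pow_self _ (by omega)).trans hA
        have h6 : (p : ℤ) ∣ 1 := by
          have := h.sub h5
          rwa [sub_sub_cancel] at this
        exact hpp.not_isUnit (isUnit_of_dvd_one h6)
      have hcop : ∀ n : ℕ, IsCoprime ((p : ℤ) ^ n) A := fun n =>
        (hpp.coprime_iff_not_dvd.2 hAp).pow_left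
      obtain ⟨x, w, hxw⟩ := hcop k'
      have h7 : (p : ℤ) ^ k' ∣ A * (w * (1 + B * C)) - B * C - 1 :=
        ⟨-x * (1 + B * C), by linear_combination (1 + B * C) * hxw⟩
      refine ⟨w * (1 + B * C), h7, ?_, ?_⟩
      · refine (hcop k).dvd_of_dvd_mul_left ?_
        have e : A * (w * (1 + B * C) - D) = (A * (w * (1 + B * C)) - B * C - 1) -
            (A * D - B * C - 1) := by ring
        rw [e]
        exact ((pow_dvd_pow _ (by omega)).trans h7).sub hdet
      · refine (hcop _).dvd_of_dvd_mul_left ?_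
        have e : A * (w * (1 + B * C) - 1) = (A * (w * (1 + B * C)) - B * C - 1) -
            (A - 1) + B * C := by ring
        rw [e]
        exact ((((pow_dvd_pow _ (by omega)).trans h7).sub (hM.trans hA))).add
          ((hM.trans hBB).mul_right _)
  obtain ⟨σ, z1, z2, z3⟩ := hX A B C D' hD1 (hM.trans hA) (hM.trans hBB) (hM.trans hC) hD3
  refine ⟨σ, ?_, ?_, z3⟩
  · rw [map_zsmul, z1]
    module
  · rw [map_zsmul, z2]
    have hb := (bas_down hp hB).hQ
    have e : ((p : ℤ) ^ j) • (B • P + D' • Q) =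
        B • ((p : ℤ) ^ j) • P + D' • (((p : ℤ) ^ j) • Q) := by module
    rw [e, smul_congr hb (b := D) (by push_cast; exact hD2)]

end Pool.Agent.P8H62.UO
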