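import Pool.Agent.P8H9.UO.StmG

/-!
# Project UO, package STP: making an element trivial at the other primes
-/

set_option autoImplicit false

namespace Pool.Agent.P8H62.UO

open Pool.Agent.Q19.SU.Gen Pool.Agent.P8H9.UO

section

variable {G V : Type} [Group G] [AddCommGroup V] {ρ : G → V →+ V}

theorem rs_swap {m : ℕ} {P Q : V} {x : ℤ} : RS ρ m P Q 1 0 x 1 ↔ RS ρ m Q P 1 x 0 1 := by
  constructor
  · rintro ⟨σ, h, h1, h2, h3⟩
    exact ⟨σ, h, by rw [h2, add_comm], by rw [h1, add_comm], h3⟩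
  · rintro ⟨σ, h, h1, h2, h3⟩
    exact ⟨σ, h, by rw [h2, add_comm], by rw [h1, add_comm], h3⟩

theorem bas_swap {n : ℕ} {P Q : V} (h : Bas n P Q) : Bas n Q P := by
  refine ⟨h.hQ, h.hP, ?_, ?_⟩
  · intro R hR
    obtain ⟨a, b, hab⟩ := h.span R hR
    exact ⟨b, a, by rw [hab, add_comm]⟩
  · intro a b hab
    rw [add_comm] at hab
    exact (h.ind b a hab).symm

theorem pow_fix (hR : Rep ρ) {σ : G} {R : V} (h : ρ σ R = R) (n : ℕ) : ρ (σ ^ n) R = R := by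
  induction n with
  | zero => rw [pow_zero, hR.one]
  | succ n ih => rw [pow_succ, hR.mul, h, ih]

theorem pow_U (hR : Rep ρ) {σ : G} {P Q : V} {x : ℤ} (h : ρ σ P = P) (h2 : ρ σ Q = x • P + Q)
    (n : ℕ) : ρ (σ ^ n) Q = (n * x) • P + Q := by
  induction n with
  | zero => rw [pow_zero, hR.one]; simp
  | succ n ih =>
    rw [pow_succ, hR.mul, h2, map_add, map_zsmul, pow_fix hR h, ih]
    push_cast
    module

theorem stp_aux (hD : S_DET) (hR : Rep ρ) {n m₁ m₂ e : ℕ} {P Q P₂ Q₂ : V}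
    (hc : Nat.Coprime m₁ m₂) (hm : 1 ≤ m₂)
    (he : ∀ (σ : G) (R : V), (m₁ : ℤ) • R = 0 → ρ (σ ^ e) R = R)
    (hB : Bas m₂ P₂ Q₂) (hA : AS ρ 1 m₂ (n * m₁) P₂ Q₂) (hP : (n : ℤ) • P = 0)
    (hQ : (n : ℤ) • Q = 0) (x : ℤ) (hx : RS ρ 1 P Q 1 x 0 1) :
    RS ρ (m₁ * m₂) P Q 1 (e * x) 0 1 := by
  obtain ⟨σ, hσ, h1, h2, -⟩ := hx
  have kill : ∀ R : V, (m₂ : ℤ) • R = 0 → (m₂ : ℤ) • ρ σ R = 0 := by
    intro R h
    rw [← map_zsmul, h, map_zero]
  obtain ⟨a, c, h3⟩ := hB.span _ (kill P₂ hB.hP)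
  obtain ⟨b, d, h4⟩ := hB.span _ (kill Q₂ hB.hQ)
  have hdet := hD G V ρ hR m₂ P₂ Q₂ a b c d hm hB σ hσ h3 h4
  obtain ⟨δ, hδ, h5, h6, h7⟩ := hA d (-b) (-c) a (by
    have e1 : d * a - -b * -c - 1 = a * d - b * c - 1 := by ring
    rw [e1]
    exact hdet) (by simp) (by simp) (by simp) (by simp)
  have hδP : ρ δ P = P := h7 P (by
    push_cast
    rw [mul_comm, mul_smul, hP, smul_zero])
  have hδQ : ρ δ Q = Q := h7 Q (by
    push_cast
    rw [mul_comm, mul_smul, hQ, smul_zero])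
  have k1 : ρ (σ * δ) P = P := by
    rw [hR.mul, hδP, h1]
    simp
  have k2 : ρ (σ * δ) Q = x • P + Q := by
    rw [hR.mul, hδQ, h2]
    simp
  have k3 : ρ (σ * δ) P₂ = P₂ := by
    rw [hR.mul, h5, map_add, map_zsmul, map_zsmul, h3, h4]
    have e1 : d • (a • P₂ + c • Q₂) + -c • (b • P₂ + d • Q₂) = (a * d - b * c) • P₂ := by module
    rw [e1]
    have := smul_congr hB.hP hdet
    rw [smul_congr hB.hP (b := 1) hdet, one_smul]
  have k4 : ρ (σ * δ) Q₂ = Q₂ := by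
    rw [hR.mul, h6, map_add, map_zsmul, map_zsmul, h3, h4]
    have e1 : -b • (a • P₂ + c • Q₂) + a • (b • P₂ + d • Q₂) = (a * d - b * c) • Q₂ := by module
    rw [e1, smul_congr hB.hQ (b := 1) hdet, one_smul]
  have k5 : ∀ R : V, (m₂ : ℤ) • R = 0 → ρ (σ * δ) R = R := by
    intro R h
    obtain ⟨u, v, rfl⟩ := hB.span R h
    rw [map_add, map_zsmul, map_zsmul, k3, k4]
  refine ⟨(σ * δ) ^ e, Subgroup.pow_mem _ (Subgroup.mul_mem _ hσ hδ) _, ?_, ?_, ?_⟩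
  · rw [pow_fix hR k1]
    simp
  · rw [pow_U hR k1 k2, one_smul]
  · intro R h
    obtain ⟨u, v, huv⟩ := (Nat.isCoprime_iff_coprime.2 hc : IsCoprime (m₁ : ℤ) (m₂ : ℤ))
    have e1 : R = (u * m₁) • R + (v * m₂) • R := by
      rw [← add_smul, huv, one_smul]
    push_cast at h
    have e2 : ρ ((σ * δ) ^ e) ((u * m₁) • R) = (u * m₁) • R := by
      refine pow_fix hR (k5 _ ?_) e
      have : (m₂ : ℤ) • ((u * m₁) • R) = u • ((m₁ * m₂ : ℤ) • R) := by module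
      rw [this, h, smul_zero]
    have e3 : ρ ((σ * δ) ^ e) ((v * m₂) • R) = (v * m₂) • R := by
      refine he _ _ ?_
      have : (m₁ : ℤ) • ((v * m₂) • R) = v • ((m₁ * m₂ : ℤ) • R) := by module
      rw [this, h, smul_zero]
    conv_lhs => rw [e1, map_add, e2, e3]
    exact e1.symm

end

theorem stp : S_STP := by
  intro hD G V _ _ ρ hR p k m₁ m₂ e P Q P₂ Q₂ hp hc hm he hB hA hBk
  refine ⟨fun x hx => stp_aux hD hR hc hm he hB hA hBk.hP hBk.hQ x hx, fun x hx => ?_⟩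
  rw [rs_swap] at hx ⊢
  exact stp_aux hD hR hc hm he hB hA hBk.hQ hBk.hP x hx

end Pool.Agent.P8H62.UO
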