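import Pool.Agent.P8H9.UO.StmG

/-!
# Project UO, package TRV: the shape of a unipotent element
-/

set_option autoImplicit false

namespace Pool.Agent.P8H62.UO

open Pool.Agent.Q19.SU.Gen Pool.Agent.P8H9.UO

section

variable {V : Type} [AddCommGroup V]

/-- division of points -/
theorem divi {p K : ℕ} (hp : p.Prime) {A B : V} (h : Bas (p ^ K) A B) {i j : ℕ} (hij : i + j = K)
    {R : V} (hR : ((p : ℤ) ^ i) • R = 0) :
    ∃ R' : V, ((p : ℤ) ^ K) • R' = 0 ∧ ((p : ℤ) ^ j) • R' = R := by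
  obtain ⟨a, b, hab⟩ := h.span R (by
    push_cast
    rw [← hij, add_comm, pow_add, mul_smul, hR, smul_zero])
  have h1 := h.ind (((p : ℤ) ^ i) * a) (((p : ℤ) ^ i) * b) (by
    rw [mul_smul, mul_smul, ← smul_add, ← hab, hR])
  have hp0 : ((p : ℤ) ^ i) ≠ 0 := pow_ne_zero _ (by exact_mod_cast hp.ne_zero)
  push_cast at h1
  rw [← hij, pow_add] at h1
  obtain ⟨a', ha'⟩ := (mul_dvd_mul_iff_left hp0).1 h1.1
  obtain ⟨b', hb'⟩ := (mul_dvd_mul_iff_left hp0).1 h1.2
  have hA := h.hP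
  have hB := h.hQ
  push_cast at hA hB
  refine ⟨a' • A + b' • B, ?_, ?_⟩
  · have e : ((p : ℤ) ^ K) • (a' • A + b' • B) = a' • (((p : ℤ) ^ K) • A) +
        b' • (((p : ℤ) ^ K) • B) := by module
    rw [e, hA, hB, smul_zero, smul_zero, add_zero]
  · rw [hab, ha', hb']
    module

/-- two independent elements killed by `p` are a basis -/
theorem bas_of_ind {p : ℕ} (hp : p.Prime) {A B E F : V} (h : Bas p A B) (hE : (p : ℤ) • E = 0)
    (hF : (p : ℤ) • F = 0) (hi : ∀ a b : ℤ, a • E + b • F = 0 → (p : ℤ) ∣ a ∧ (p : ℤ) ∣ b) :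
    Bas p E F := by
  refine ⟨hE, hF, ?_, hi⟩
  obtain ⟨α, β, h1⟩ := h.span E hE
  obtain ⟨γ, δ, h2⟩ := h.span F hF
  have hpp : Prime (p : ℤ) := Nat.prime_iff_prime_int.1 hp
  have e1 : δ • E + (-β) • F = (α * δ - β * γ) • A := by rw [h1, h2]; module
  have e2 : (-γ) • E + α • F = (α * δ - β * γ) • B := by rw [h1, h2]; module
  have hΔ : ¬ (p : ℤ) ∣ α * δ - β * γ := by
    intro hd
    have k1 := hi δ (-β) (by
      rw [e1, smul_congr h.hP (b := 0) (by simpa using hd), zero_smul])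
    have k2 := hi (-γ) α (by
      rw [e2, smul_congr h.hQ (b := 0) (by simpa using hd), zero_smul])
    have k3 : E = 0 := by
      rw [h1, smul_congr h.hP (b := 0) (by simpa using k2.2),
        smul_congr h.hQ (b := 0) (by simpa using k1.2)]
      simp
    have k4 := hi 1 0 (by rw [k3]; simp)
    exact hpp.not_isUnit (isUnit_of_dvd_one k4.1)
  obtain ⟨u, v, huv⟩ : IsCoprime (α * δ - β * γ) (p : ℤ) :=
    (hpp.coprime_iff_not_dvd.2 hΔ).symm
  have hu : (p : ℤ) ∣ u * (α * δ - β * γ) - 1 := ⟨-v, by linear_combination huv⟩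
  intro R hR
  obtain ⟨x, y, hxy⟩ := h.span R hR
  refine ⟨x * u * δ + y * u * (-γ), x * u * (-β) + y * u * α, ?_⟩
  have e3 : (x * u * δ + y * u * (-γ)) • E + (x * u * (-β) + y * u * α) • F =
      (x * u) • (δ • E + (-β) • F) + (y * u) • ((-γ) • E + α • F) := by module
  have e4 : (x * u) • ((α * δ - β * γ) • A) = x • A := by
    rw [smul_smul]
    refine smul_congr h.hP ?_
    have : x * u * (α * δ - β * γ) - x = x * (u * (α * δ - β * γ) - 1) := by ring
    rw [this]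
    exact hu.mul_left _
  have e5 : (y * u) • ((α * δ - β * γ) • B) = y • B := by
    rw [smul_smul]
    refine smul_congr h.hQ ?_
    have : y * u * (α * δ - β * γ) - y = y * (u * (α * δ - β * γ) - 1) := by ring
    rw [this]
    exact hu.mul_left _
  rw [e3, e1, e2, e4, e5, hxy]

end

theorem trv : S_TRV := by
  classical
  intro G V _ _ ρ hR p s K hp hK u hu hex
  have hpp : Prime (p : ℤ) := Nat.prime_iff_prime_int.1 hp
  set D : V →+ V := ρ u - AddMonoidHom.id V with hD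
  have hDa : ∀ R, D R = ρ u R - R := fun R => rfl
  have hDD : ∀ R : V, ((p : ℤ) ^ K) • R = 0 → D (D R) = 0 := by
    intro R h
    rw [hDa (D R), hDa, hu R h, sub_self]
  have hex2 : ∃ r : ℕ, ∃ P : V, ((p : ℤ) ^ (r + 1)) • P = 0 ∧ D P ≠ 0 := by
    obtain ⟨P, h1, h2⟩ := hex
    exact ⟨s, P, h1, sub_ne_zero.2 h2⟩
  set r := Nat.find hex2 with hr
  obtain ⟨P₁, hP₁, hDP₁⟩ := Nat.find_spec hex2
  rw [← hr] at hP₁
  have hrs : r ≤ s := by
    refine Nat.find_min' hex2 ?_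
    obtain ⟨P, h1, h2⟩ := hex
    exact ⟨P, h1, sub_ne_zero.2 h2⟩
  have hz : ∀ R : V, ((p : ℤ) ^ r) • R = 0 → D R = 0 := by
    intro R h
    rcases Nat.eq_zero_or_pos r with h0 | h0
    · rw [h0, pow_zero, one_smul] at h
      rw [h, map_zero]
    · by_contra hne
      refine Nat.find_min hex2 (m := r - 1) (by omega) ⟨R, ?_, hne⟩
      have : r - 1 + 1 = r := by omega
      rw [this]
      exact h
  -- bases
  obtain ⟨A, B, hAB⟩ := hR.bas (p ^ K) (Nat.pos_of_ne_zero (pow_ne_zero _ hp.ne_zero))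
  obtain ⟨A', B', hAB'⟩ := hR.bas p hp.one_le
  obtain ⟨Q₀, hQ₀, hQ₁⟩ := divi hp hAB (i := r + 1) (j := K - r - 1) (by omega) hP₁
  have hPp : ((p : ℤ) ^ r) • ((p : ℤ) • P₁) = 0 := by
    rw [smul_smul, ← pow_succ]
    exact hP₁
  have hE0 : (p : ℤ) • D P₁ = 0 := by
    rw [← map_zsmul]
    exact hz _ hPp
  have e1 : ((p : ℤ) ^ (K - r - 1)) • D Q₀ = D P₁ := by rw [← map_zsmul, hQ₁]
  have e2 : ((p : ℤ) ^ (K - r - 1)) • (((p : ℤ) ^ r) • Q₀) = ((p : ℤ) ^ r) • P₁ := by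
    rw [smul_comm, hQ₁]
  have hKr : K - r = (K - r - 1) + 1 := by omega
  have kP : ((p : ℤ) ^ (K - r - 1 + 1)) • D Q₀ = 0 := by
    rw [pow_succ', mul_smul, e1, hE0]
  have kQ : ((p : ℤ) ^ (K - r - 1 + 1)) • (((p : ℤ) ^ r) • Q₀) = 0 := by
    rw [smul_smul, ← pow_add]
    have : K - r - 1 + 1 + r = K := by omega
    rw [this, hQ₀]
  have hDQ : D (((p : ℤ) ^ r) • Q₀) = ((p : ℤ) ^ r) • D Q₀ := map_zsmul _ _ _
  have hne : ∀ c : ℤ, ((p : ℤ) ^ r) • P₁ ≠ c • D P₁ := by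
    intro c hc
    set W := c • D Q₀ - ((p : ℤ) ^ r) • Q₀ with hW
    have w1 : ((p : ℤ) ^ (K - r - 1)) • W = 0 := by
      rw [hW, smul_sub, smul_comm, e1, e2, hc, sub_self]
    obtain ⟨W', hW'1, hW'2⟩ := divi hp hAB (i := K - r - 1) (j := r + 1) (by omega) w1
    have w2 : D W = -(((p : ℤ) ^ r) • D Q₀) := by
      rw [hW, map_sub, map_zsmul, hDD Q₀ hQ₀, smul_zero, zero_sub, hDQ]
    have w3 : ((p : ℤ) ^ (K - r)) • D W' = 0 := by
      rw [← map_zsmul]
      refine hz _ ?_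
      rw [smul_smul, ← pow_add]
      have : r + (K - r) = K := by omega
      rw [this, hW'1]
    have w4 : ((p : ℤ) ^ (K - r)) • D W' = ((p : ℤ) ^ (K - 2 * r - 1)) • D W := by
      rw [← hW'2, map_zsmul, smul_smul, ← pow_add]
      congr 2
      omega
    rw [w3, w2, smul_neg, smul_smul, ← pow_add] at w4
    have h5 : K - 2 * r - 1 + r = K - r - 1 := by omega
    rw [h5, e1] at w4
    exact hDP₁ (neg_eq_zero.1 w4.symm)
  have hbas : Bas p (D P₁) (((p : ℤ) ^ r) • P₁) := by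
    refine bas_of_ind hp hAB' hE0 ?_ ?_
    · rw [smul_comm]
      exact hPp
    · intro a b hab
      have hb : (p : ℤ) ∣ b := by
        by_contra hb
        obtain ⟨x, y, hxy⟩ : IsCoprime b (p : ℤ) := (hpp.coprime_iff_not_dvd.2 hb).symm
        refine hne (-(x * a)) ?_
        have hF0 : (p : ℤ) • (((p : ℤ) ^ r) • P₁) = 0 := by
          rw [smul_comm]
          exact hPp
        have h6 : (((p : ℤ) ^ r) • P₁) = (x * b) • (((p : ℤ) ^ r) • P₁) := by
          conv_lhs => rw [← one_smul ℤ (((p : ℤ) ^ r) • P₁), ← hxy]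
          rw [add_smul, mul_smul y, hF0, smul_zero, add_zero]
        rw [h6, mul_smul, eq_neg_of_add_eq_zero_right hab]
        module
      refine ⟨?_, hb⟩
      have hF0 : (p : ℤ) • (((p : ℤ) ^ r) • P₁) = 0 := by
        rw [smul_comm]
        exact hPp
      rw [smul_congr (n := p) hF0 (b := 0) (by simpa using hb), zero_smul, add_zero] at hab
      by_contra ha
      obtain ⟨x, y, hxy⟩ : IsCoprime a (p : ℤ) := (hpp.coprime_iff_not_dvd.2 ha).symm
      apply hDP₁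
      rw [← one_smul ℤ (D P₁), ← hxy, add_smul, mul_smul, mul_smul, hab, hE0, smul_zero, smul_zero,
        add_zero]
  refine ⟨r, D Q₀, ((p : ℤ) ^ r) • Q₀, hrs, ?_, ?_, ?_⟩
  · rw [hKr]
    exact Bas.lift _ kP kQ (by rw [e1, e2]; exact hbas)
  · have := hDD Q₀ hQ₀
    rw [hDa (D Q₀)] at this
    exact sub_eq_zero.1 this
  · have := hDa (((p : ℤ) ^ r) • Q₀)
    rw [hDQ] at this
    rw [this]
    abel

end Pool.Agent.P8H62.UO
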